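import Mathlib

/-! # Inclusion matrices of the Boolean lattice -/

set_option autoImplicit false

namespace Pool.Agent.Q122.Forest

open Finset

variable {V : Type*} [DecidableEq V] {K : Type*} [Field K] [CharZero K]

/-- Double counting: the sum over the subsets of size `k` of the sums over the subsets of
size `i`. -/
lemma sum_sum (c : Finset V → K) (T : Finset V) (i k : ℕ) (hik : i ≤ k) :
    ∑ T' ∈ T.powersetCard k, ∑ S ∈ T'.powersetCard i, c S =
      ((T.card - i).choose (k - i) : K) * ∑ S ∈ T.powersetCard i, c S := by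
  have h1 : ∑ T' ∈ T.powersetCard k, ∑ S ∈ T'.powersetCard i, c S =
      ∑ T' ∈ T.powersetCard k, ∑ S ∈ T.powersetCard i, if S ⊆ T' then c S else 0 := by
    refine Finset.sum_congr rfl fun T' hT' => ?_
    rw [Finset.mem_powersetCard] at hT'
    rw [← Finset.sum_filter]
    refine Finset.sum_congr ?_ fun _ _ => rfl
    ext S
    simp only [Finset.mem_powersetCard, Finset.mem_filter]
    constructor
    · rintro ⟨h, h'⟩
      exact ⟨⟨h.trans hT'.1, h'⟩, h⟩
    · rintro ⟨⟨_, h'⟩, h⟩
      exact ⟨h, h'⟩
  rw [h1, Finset.sum_comm, Finset.mul_sum]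
  refine Finset.sum_congr rfl fun S hS => ?_
  rw [Finset.mem_powersetCard] at hS
  rw [← Finset.sum_filter, Finset.sum_const, nsmul_eq_mul]
  congr 2
  have h2 : ((T.powersetCard k).filter fun T' => S ⊆ T').card =
      ((T \ S).powersetCard (k - i)).card := by
    refine Finset.card_bij' (fun T' _ => T' \ S) (fun R _ => R ∪ S) ?_ ?_ ?_ ?_
    · intro T' hT'
      rw [Finset.mem_filter, Finset.mem_powersetCard] at hT'
      rw [Finset.mem_powersetCard]
      refine ⟨Finset.sdiff_subset_sdiff hT'.1.1 le_rfl, ?_⟩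
      rw [Finset.card_sdiff_of_subset hT'.2, hT'.1.2, hS.2]
    · intro R hR
      rw [Finset.mem_powersetCard] at hR
      rw [Finset.mem_filter, Finset.mem_powersetCard]
      have hd : Disjoint R S := by
        rw [Finset.disjoint_left]
        intro x hx
        exact (Finset.mem_sdiff.1 (hR.1 hx)).2
      refine ⟨⟨Finset.union_subset (hR.1.trans Finset.sdiff_subset) hS.1, ?_⟩,
        Finset.subset_union_right⟩
      rw [Finset.card_union_of_disjoint hd, hR.2, hS.2]
      omega
    · intro T' hT'
      rw [Finset.mem_filter] at hT'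
      exact Finset.sdiff_union_of_subset hT'.2
    · intro R hR
      rw [Finset.mem_powersetCard] at hR
      have hd : Disjoint R S := by
        rw [Finset.disjoint_left]
        intro x hx
        exact (Finset.mem_sdiff.1 (hR.1 hx)).2
      ext x
      simp only [Finset.mem_sdiff, Finset.mem_union]
      constructor
      · rintro ⟨h | h, h'⟩
        · exact h
        · exact absurd h h'
      · intro h
        exact ⟨Or.inl h, fun h' => Finset.disjoint_left.1 hd h h'⟩
  rw [h2, Finset.card_powersetCard, Finset.card_sdiff_of_subset hS.1, hS.2]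

/-- If all sums over the subsets of the sets of size `k` vanish, then so do those over the
subsets of larger sets. -/
lemma sum_eq_zero_of_large (c : Finset V → K) (F : Finset V) (i k : ℕ) (hik : i ≤ k)
    (h : ∀ T ⊆ F, T.card = k → ∑ S ∈ T.powersetCard i, c S = 0) (T : Finset V) (hT : T ⊆ F)
    (hk : k ≤ T.card) : ∑ S ∈ T.powersetCard i, c S = 0 := by
  have h1 := sum_sum c T i k hik
  rw [Finset.sum_eq_zero] at h1
  · rcases mul_eq_zero.1 h1.symm with h2 | h2
    · exfalso
      rw [Nat.cast_eq_zero, Nat.choose_eq_zero_iff] at h2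
      omega
    · exact h2
  · intro T' hT'
    rw [Finset.mem_powersetCard] at hT'
    exact h T' (hT'.1.trans hT) hT'.2

/-- Injectivity of the inclusion matrices. -/
theorem bool_inj (c : Finset V → K) (F : Finset V) (i k : ℕ) (hik : i ≤ k) (hF : i + k ≤ F.card)
    (h : ∀ T ⊆ F, T.card = k → ∑ S ∈ T.powersetCard i, c S = 0) (S₀ : Finset V) (hS₀ : S₀ ⊆ F)
    (hS : S₀.card = i) : c S₀ = 0 := by
  have key : ∀ U ∈ S₀.powerset, (-1 : K) ^ U.card * ∑ S ∈ (F \ U).powersetCard i, c S = 0 := by
    intro U hU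
    rw [Finset.mem_powerset] at hU
    rw [sum_eq_zero_of_large c F i k hik h (F \ U) Finset.sdiff_subset, mul_zero]
    rw [Finset.card_sdiff_of_subset (hU.trans hS₀)]
    have := Finset.card_le_card hU
    omega
  have h1 := Finset.sum_eq_zero key
  have h2 : ∀ U ∈ S₀.powerset, (-1 : K) ^ U.card * ∑ S ∈ (F \ U).powersetCard i, c S =
      ∑ S ∈ F.powersetCard i, if Disjoint U S then (-1 : K) ^ U.card * c S else 0 := by
    intro U hU
    rw [← Finset.sum_filter, Finset.mul_sum]
    refine Finset.sum_congr ?_ fun _ _ => rfl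
    ext S
    simp only [Finset.mem_powersetCard, Finset.mem_filter, Finset.subset_sdiff]
    constructor
    · rintro ⟨⟨h, h'⟩, h''⟩
      exact ⟨⟨h, h''⟩, h'.symm⟩
    · rintro ⟨⟨h, h''⟩, h'⟩
      exact ⟨⟨h, h'.symm⟩, h''⟩
  rw [Finset.sum_congr rfl h2, Finset.sum_comm] at h1
  have h3 : ∀ S ∈ F.powersetCard i, (∑ U ∈ S₀.powerset,
      if Disjoint U S then (-1 : K) ^ U.card * c S else 0) = if S = S₀ then c S₀ else 0 := by
    intro S hSF
    rw [Finset.mem_powersetCard] at hSF
    rw [← Finset.sum_filter, ← Finset.sum_mul]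
    have h4 : (S₀.powerset.filter fun U => Disjoint U S) = (S₀ \ S).powerset := by
      ext U
      simp only [Finset.mem_filter, Finset.mem_powerset, Finset.subset_sdiff]
    rw [h4]
    have h5 := Finset.sum_powerset_neg_one_pow_card (x := S₀ \ S)
    have h6 : ∑ U ∈ (S₀ \ S).powerset, (-1 : K) ^ U.card =
        ((∑ U ∈ (S₀ \ S).powerset, (-1 : ℤ) ^ U.card : ℤ) : K) := by
      push_cast
      rfl
    rw [h6, h5]
    by_cases hSS : S = S₀
    · rw [if_pos hSS, if_pos (by rw [hSS, Finset.sdiff_self]), hSS]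
      simp
    · rw [if_neg hSS, if_neg, Int.cast_zero, zero_mul]
      intro h7
      rw [Finset.sdiff_eq_empty_iff_subset] at h7
      exact hSS (Finset.eq_of_subset_of_card_le h7 (by omega)).symm
  rw [Finset.sum_congr rfl h3, Finset.sum_ite_eq', if_pos] at h1
  · exact h1
  · exact Finset.mem_powersetCard.2 ⟨hS₀, hS⟩

/-- Injectivity of the transposed inclusion matrices. -/
theorem bool_surj (d : Finset V → K) (E : Finset V) (i k : ℕ) (hik : i ≤ k) (hE : E.card ≤ i + k)
    (hkE : k ≤ E.card)
    (h : ∀ S ⊆ E, S.card = i → ∑ T ∈ E.powersetCard k with S ⊆ T, d T = 0)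
    (T₀ : Finset V) (hT₀ : T₀ ⊆ E) (hT : T₀.card = k) : d T₀ = 0 := by
  have h1 := bool_inj (fun R => d (E \ R)) E (E.card - k) (E.card - i) (by omega) (by omega) ?_
    (E \ T₀) Finset.sdiff_subset (by rw [Finset.card_sdiff_of_subset hT₀, hT])
  · rwa [Finset.sdiff_sdiff_eq_self hT₀] at h1
  · intro T' hT' hTc
    have h2 := h (E \ T') Finset.sdiff_subset (by rw [Finset.card_sdiff_of_subset hT', hTc]; omega)
    rw [← h2]
    refine Finset.sum_bij' (fun R _ => E \ R) (fun T _ => E \ T) ?_ ?_ ?_ ?_ ?_
    · intro R hR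
      rw [Finset.mem_powersetCard] at hR
      have hRE := hR.1.trans hT'
      rw [Finset.mem_filter, Finset.mem_powersetCard]
      refine ⟨⟨Finset.sdiff_subset, ?_⟩, Finset.sdiff_subset_sdiff le_rfl hR.1⟩
      rw [Finset.card_sdiff_of_subset hRE, hR.2]
      omega
    · intro T hT
      rw [Finset.mem_filter, Finset.mem_powersetCard] at hT
      rw [Finset.mem_powersetCard]
      refine ⟨?_, ?_⟩
      · have := Finset.sdiff_subset_sdiff (le_refl E) hT.2
        rwa [Finset.sdiff_sdiff_eq_self hT'] at this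
      · rw [Finset.card_sdiff_of_subset hT.1.1, hT.1.2]
    · intro R hR
      rw [Finset.mem_powersetCard] at hR
      exact Finset.sdiff_sdiff_eq_self (hR.1.trans hT')
    · intro T hT
      rw [Finset.mem_filter, Finset.mem_powersetCard] at hT
      exact Finset.sdiff_sdiff_eq_self hT.1.1
    · intro R hR
      rfl

end Pool.Agent.Q122.Forest
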