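import Mathlib
import Pool.Agent.Q122.Forest.Bool

/-! # Pure simplicial forests: leaves and surjectivity -/

set_option autoImplicit false

namespace Pool.Agent.Q122.Forest

open Finset

variable {V : Type*} [DecidableEq V]

/-- `S` is a face of the complex with the facets `C`. -/
def IsFace (C : Finset (Finset V)) (S : Finset V) : Prop := ∃ F ∈ C, S ⊆ F

/-- The facet `F` is a leaf of the complex with the facets `C`. -/
def IsLeaf (C : Finset (Finset V)) (F : Finset V) : Prop :=
  F ∈ C ∧ (C = {F} ∨ ∃ G ∈ C, G ≠ F ∧ ∀ F' ∈ C, F' ≠ F → F ∩ F' ⊆ F ∩ G)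

/-- The facets `F` and `F'` are in the same connected component. -/
def Conn (C : Finset (Finset V)) (F F' : Finset V) : Prop :=
  Relation.ReflTransGen (fun A B => A ∈ C ∧ B ∈ C ∧ (A ∩ B).Nonempty) F F'

/-- Simplicial forests, given by the set of the facets: every nonempty set of facets in the same
connected component generates a complex with a leaf. -/
def IsForest (C : Finset (Finset V)) : Prop :=
  ∀ S ⊆ C, S.Nonempty → (∀ F ∈ S, ∀ F' ∈ S, Conn C F F') → ∃ F, IsLeaf S F

lemma IsForest.exists_leaf {C : Finset (Finset V)} (hC : IsForest C) {S : Finset (Finset V)}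
    (hS : S ⊆ C) (hne : S.Nonempty) : ∃ F, IsLeaf S F := by
  classical
  obtain ⟨F₀, hF₀⟩ := hne
  have hsymm : ∀ A B, Conn C A B → Conn C B A := by
    intro A B h
    induction h with
    | refl => exact Relation.ReflTransGen.refl
    | tail _ h ih => exact Relation.ReflTransGen.head ⟨h.2.1, h.1, by rw [Finset.inter_comm]; exact h.2.2⟩ ih
  set S₀ := S.filter fun F => Conn C F₀ F with hS₀
  have h1 : S₀ ⊆ C := (Finset.filter_subset _ _).trans hS
  have h2 : S₀.Nonempty := ⟨F₀, Finset.mem_filter.2 ⟨hF₀, Relation.ReflTransGen.refl⟩⟩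
  obtain ⟨F, hF, hleaf⟩ := hC S₀ h1 h2 fun A hA B hB =>
    (hsymm _ _ (Finset.mem_filter.1 hA).2).trans (Finset.mem_filter.1 hB).2
  have hFS : F ∈ S := (Finset.mem_filter.1 hF).1
  have hdis : ∀ F' ∈ S, F' ∉ S₀ → F ∩ F' = ∅ := by
    intro F' hF' hn
    by_contra hcon
    refine hn (Finset.mem_filter.2 ⟨hF', ?_⟩)
    exact (Finset.mem_filter.1 hF).2.tail ⟨hS hFS, hS hF', Finset.nonempty_iff_ne_empty.2 hcon⟩
  refine ⟨F, hFS, ?_⟩
  rcases hleaf with h | ⟨G, hG, hGF, h⟩
  · by_cases hSF : S = {F}
    · exact Or.inl hSF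
    · right
      obtain ⟨G, hG, hGF⟩ : ∃ G ∈ S, G ≠ F := by
        by_contra hcon
        push Not at hcon
        exact hSF (Finset.eq_singleton_iff_unique_mem.2 ⟨hFS, hcon⟩)
      refine ⟨G, hG, hGF, fun F' hF' hne => ?_⟩
      rw [hdis F' hF' ?_]
      · exact Finset.empty_subset _
      · rw [h, Finset.mem_singleton]
        exact hne
  · right
    refine ⟨G, (Finset.mem_filter.1 hG).1, hGF, fun F' hF' hne => ?_⟩
    by_cases hF'0 : F' ∈ S₀
    · exact h F' hF'0 hne
    · rw [hdis F' hF' hF'0]
      exact Finset.empty_subset _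

variable {K : Type*} [Field K] [CharZero K]

/-- The transposed inclusion matrices of a pure forest are injective above the middle. -/
theorem forest_dual [Fintype V] {C : Finset (Finset V)} (hC : IsForest C) {D : ℕ}
    (hD : ∀ F ∈ C, F.card = D) {i k : ℕ} (hik : i < k) (hiD : D + 1 ≤ i + k) (hi : 1 ≤ i) :
    ∀ (N : ℕ) (S : Finset (Finset V)), S.card = N → S ⊆ C → ∀ d : Finset V → K,
      (∀ T, T.card = k → ¬ IsFace S T → d T = 0) →
      (∀ R, IsFace S R → R.card = i →
        ∑ T ∈ (Finset.univ : Finset V).powersetCard k with R ⊆ T, d T = 0) →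
      ∀ T, T.card = k → d T = 0 := by
  intro N
  induction N with
  | zero =>
    intro S hS hSC d h1 h2 T hT
    refine h1 T hT ?_
    rintro ⟨F, hF, -⟩
    rw [Finset.card_eq_zero] at hS
    simp [hS] at hF
  | succ N ih =>
    intro S hS hSC d h1 h2 T hT
    have hne : S.Nonempty := by
      rw [← Finset.card_pos]; omega
    obtain ⟨F, hFS, hleaf⟩ := hC.exists_leaf hSC hne
    have hnew : ∀ T, T.card = k → T ⊆ F → ¬ IsFace (S.erase F) T → d T = 0 := by
      intro T hT hTF hTn
      -- a vertex of `T` which is in no other facet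
      obtain ⟨v, hvT, hv⟩ : ∃ v ∈ T, ∀ F' ∈ S, F' ≠ F → v ∉ F' := by
        rcases hleaf with h | ⟨G, hG, hGF, h⟩
        · obtain ⟨v, hv⟩ : T.Nonempty := by
            rw [← Finset.card_pos]; omega
          refine ⟨v, hv, fun F' hF' hne => ?_⟩
          rw [h, Finset.mem_singleton] at hF'
          exact absurd hF' hne
        · have hTG : ¬ T ⊆ G := fun h' => hTn ⟨G, Finset.mem_erase.2 ⟨hGF, hG⟩, h'⟩
          rw [Finset.not_subset] at hTG
          obtain ⟨v, hvT, hvG⟩ := hTG
          refine ⟨v, hvT, fun F' hF' hne hvF' => hvG ?_⟩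
          exact (Finset.mem_inter.1 (h F' hF' hne (Finset.mem_inter.2 ⟨hTF hvT, hvF'⟩))).2
      have hvF : v ∈ F := hTF hvT
      have hFc := hD F (hSC hFS)
      have hkD : k ≤ D := by rw [← hT, ← hFc]; exact Finset.card_le_card hTF
      have key := bool_surj (fun T' => d (insert v T')) (F.erase v) (i - 1) (k - 1) (by omega)
        (by rw [Finset.card_erase_of_mem hvF, hFc]; omega)
        (by rw [Finset.card_erase_of_mem hvF, hFc]; omega) ?_ (T.erase v)
        (Finset.erase_subset_erase _ hTF) (by rw [Finset.card_erase_of_mem hvT, hT])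
      · rwa [Finset.insert_erase hvT] at key
      · intro R' hR' hRc
        have hvR' : v ∉ R' := fun h => Finset.notMem_erase v F (hR' h)
        have hRF : insert v R' ⊆ F := Finset.insert_subset hvF (hR'.trans (Finset.erase_subset _ _))
        have h3 := h2 (insert v R') ⟨F, hFS, hRF⟩
          (by rw [Finset.card_insert_of_notMem hvR', hRc]; omega)
        rw [← h3]
        have h4 : ∑ T ∈ (Finset.univ : Finset V).powersetCard k with insert v R' ⊆ T, d T =
            ∑ T ∈ F.powersetCard k with insert v R' ⊆ T, d T := by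
          symm
          refine Finset.sum_subset ?_ ?_
          · refine Finset.filter_subset_filter _ (Finset.powersetCard_mono (Finset.subset_univ _))
          · intro T hT1 hT2
            rw [Finset.mem_filter] at hT1
            refine h1 T (Finset.mem_powersetCard.1 hT1.1).2 ?_
            rintro ⟨F', hF', hTF'⟩
            by_cases hFF : F' = F
            · refine hT2 (Finset.mem_filter.2 ⟨Finset.mem_powersetCard.2 ⟨hFF ▸ hTF', ?_⟩, hT1.2⟩)
              exact (Finset.mem_powersetCard.1 hT1.1).2
            · exact hv F' hF' hFF (hTF' (hT1.2 (Finset.mem_insert_self _ _)))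
        rw [h4]
        refine Finset.sum_bij' (fun T' _ => insert v T') (fun T _ => T.erase v) ?_ ?_ ?_ ?_ ?_
        · intro T' hT'
          rw [Finset.mem_filter, Finset.mem_powersetCard] at hT'
          have hvT' : v ∉ T' := fun h => Finset.notMem_erase v F (hT'.1.1 h)
          rw [Finset.mem_filter, Finset.mem_powersetCard]
          refine ⟨⟨Finset.insert_subset hvF (hT'.1.1.trans (Finset.erase_subset _ _)), ?_⟩,
            Finset.insert_subset_insert _ hT'.2⟩
          rw [Finset.card_insert_of_notMem hvT', hT'.1.2]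
          omega
        · intro T hT
          rw [Finset.mem_filter, Finset.mem_powersetCard] at hT
          have hvT : v ∈ T := hT.2 (Finset.mem_insert_self _ _)
          rw [Finset.mem_filter, Finset.mem_powersetCard]
          refine ⟨⟨Finset.erase_subset_erase _ hT.1.1, ?_⟩, ?_⟩
          · rw [Finset.card_erase_of_mem hvT, hT.1.2]
          · intro x hx
            refine Finset.mem_erase.2 ⟨fun h => hvR' (h ▸ hx), hT.2 (Finset.mem_insert_of_mem hx)⟩
        · intro T' hT'
          rw [Finset.mem_filter, Finset.mem_powersetCard] at hT'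
          have hvT' : v ∉ T' := fun h => Finset.notMem_erase v F (hT'.1.1 h)
          exact Finset.erase_insert hvT'
        · intro T hT
          rw [Finset.mem_filter, Finset.mem_powersetCard] at hT
          exact Finset.insert_erase (hT.2 (Finset.mem_insert_self _ _))
        · intro T' hT'
          rfl
    have hcard : (S.erase F).card = N := by rw [Finset.card_erase_of_mem hFS, hS]; rfl
    refine ih (S.erase F) hcard ((Finset.erase_subset _ _).trans hSC) d ?_ ?_ T hT
    · intro T' hc hT'
      by_cases hf : IsFace S T'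
      · obtain ⟨F', hF', hTF'⟩ := hf
        by_cases hFF : F' = F
        · exact hnew T' hc (hFF ▸ hTF') hT'
        · exact absurd ⟨F', Finset.mem_erase.2 ⟨hFF, hF'⟩, hTF'⟩ hT'
      · exact h1 T' hc hf
    · rintro R ⟨F', hF', hRF'⟩ hR
      exact h2 R ⟨F', Finset.mem_of_mem_erase hF', hRF'⟩ hR

end Pool.Agent.Q122.Forest
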