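import Mathlib
import Pool.Agent.Q122.Forest.Bool
import Pool.Agent.Q122.Forest.Leaf

/-! # The algebra of a simplicial complex modulo the squares of the variables -/

set_option autoImplicit false

namespace Pool.Agent.Q122.Forest

open Finset MvPolynomial

section Iter

variable {V : Type*} [DecidableEq V] {K : Type*} [Field K]

/-- multiplication by the linear form, on squarefree coefficients -/
def U (a : V → K) (c : Finset V → K) (T : Finset V) : K := ∑ v ∈ T, a v * c (T.erase v)

/-- the product of the coefficients of the linear form over a set -/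
def wt (a : V → K) (S : Finset V) : K := ∏ v ∈ S, a v

lemma wt_ne_zero {a : V → K} (ha : ∀ v, a v ≠ 0) (S : Finset V) : wt a S ≠ 0 :=
  Finset.prod_ne_zero_iff.2 fun v _ => ha v

lemma iter_U (a : V → K) (ha : ∀ v, a v ≠ 0) (c : Finset V → K) (j : ℕ) (T : Finset V) :
    (U a)^[j] c T = if j ≤ T.card then
      (j.factorial : K) * wt a T * ∑ S ∈ T.powersetCard (T.card - j), c S / wt a S else 0 := by
  induction j generalizing T with
  | zero =>
    simp only [Function.iterate_zero, id_eq, Nat.zero_le, if_true, Nat.factorial_zero, Nat.cast_one,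
      one_mul, Nat.sub_zero, Finset.powersetCard_self, Finset.sum_singleton]
    rw [mul_div_cancel₀ _ (wt_ne_zero ha T)]
  | succ j ih =>
    rw [Function.iterate_succ_apply', U]
    by_cases hj : j + 1 ≤ T.card
    · rw [if_pos hj]
      have h1 : ∀ v ∈ T, a v * (U a)^[j] c (T.erase v) =
          (j.factorial : K) * wt a T *
            ∑ S ∈ (T.erase v).powersetCard (T.card - (j + 1)), c S / wt a S := by
        intro v hv
        rw [ih, Finset.card_erase_of_mem hv, if_pos (by omega)]
        have h2 : wt a T = a v * wt a (T.erase v) := (Finset.mul_prod_erase T a hv).symm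
        have h3 : T.card - 1 - j = T.card - (j + 1) := by omega
        rw [h2, h3]
        ring
      rw [Finset.sum_congr rfl h1, ← Finset.mul_sum]
      have h4 : ∑ v ∈ T, ∑ S ∈ (T.erase v).powersetCard (T.card - (j + 1)), c S / wt a S =
          ∑ S ∈ T.powersetCard (T.card - (j + 1)), ∑ v ∈ T \ S, c S / wt a S := by
        refine Finset.sum_comm' ?_
        intro v S
        simp only [Finset.mem_powersetCard, Finset.mem_sdiff, Finset.subset_erase]
        tauto
      rw [h4]
      have h5 : ∀ S ∈ T.powersetCard (T.card - (j + 1)), ∑ v ∈ T \ S, c S / wt a S =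
          ((j + 1 : ℕ) : K) * (c S / wt a S) := by
        intro S hS
        rw [Finset.mem_powersetCard] at hS
        rw [Finset.sum_const, Finset.card_sdiff_of_subset hS.1, hS.2, nsmul_eq_mul]
        congr 2
        omega
      rw [Finset.sum_congr rfl h5, ← Finset.mul_sum, Nat.factorial_succ]
      push_cast
      ring
    · rw [if_neg hj]
      refine Finset.sum_eq_zero fun v hv => ?_
      rw [ih, Finset.card_erase_of_mem hv, if_neg, mul_zero]
      have := Finset.card_pos.2 ⟨v, hv⟩
      omega

end Iter

section Surj

variable {V : Type*} [DecidableEq V] [Fintype V] {K : Type*} [Field K] [CharZero K]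

/-- Surjectivity of the inclusion matrices of a pure forest above the middle. -/
theorem forest_surj {C : Finset (Finset V)} (hC : IsForest C) {D : ℕ}
    (hD : ∀ F ∈ C, F.card = D) {i k : ℕ} (hik : i < k) (hiD : D + 1 ≤ i + k) (hi : 1 ≤ i)
    (g : Finset V → K) : ∃ c : Finset V → K, ∀ T, IsFace C T → T.card = k →
      ∑ S ∈ T.powersetCard i, c S = g T := by
  classical
  let W := {T : Finset V // IsFace C T ∧ T.card = k}
  let B : (Finset V → K) →ₗ[K] (W → K) :=
    { toFun := fun c T => ∑ S ∈ T.1.powersetCard i, c S
      map_add' := fun c c' => by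
        funext T
        simp only [Pi.add_apply, Finset.sum_add_distrib]
      map_smul' := fun r c => by
        funext T
        simp only [Pi.smul_apply, smul_eq_mul, Finset.mul_sum, RingHom.id_apply] }
  have hB : LinearMap.range B = ⊤ := by
    by_contra hne
    obtain ⟨φ, hφ, hle⟩ := Submodule.exists_le_ker_of_lt_top _ (lt_top_iff_ne_top.2 hne)
    apply hφ
    set d : Finset V → K := fun T =>
      if h : IsFace C T ∧ T.card = k then φ (Pi.single ⟨T, h⟩ 1) else 0 with hd
    have key := forest_dual hC hD hik hiD hi C.card C rfl le_rfl d ?_ ?_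
    · refine LinearMap.pi_ext' fun T => ?_
      refine LinearMap.ext_ring ?_
      have h1 := key T.1 T.2.2
      rw [hd] at h1
      simp only [dif_pos T.2] at h1
      exact h1
    · intro T _ hT
      rw [hd]
      exact dif_neg fun h => hT h.1
    · intro R hR hRi
      have h1 : φ (B (Pi.single R 1)) = 0 := LinearMap.mem_ker.1 (hle ⟨_, rfl⟩)
      have h2 : B (Pi.single R 1) =
          ∑ T : W, if R ⊆ T.1 then (Pi.single T 1 : W → K) else 0 := by
        funext T
        rw [Finset.sum_apply]
        have h3 : ∀ T' : W, (if R ⊆ T'.1 then (Pi.single T' 1 : W → K) else 0) T =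
            if T' = T then (if R ⊆ T.1 then 1 else 0) else 0 := by
          intro T'
          by_cases hT : T' = T
          · subst hT
            rw [if_pos rfl]
            split_ifs <;> simp
          · rw [if_neg hT]
            split_ifs
            · rw [Pi.single_eq_of_ne (Ne.symm hT)]
            · rfl
        rw [Finset.sum_congr rfl fun T' _ => h3 T', Finset.sum_ite_eq' Finset.univ T,
          if_pos (Finset.mem_univ _)]
        change ∑ S ∈ T.1.powersetCard i, (Pi.single R (1 : K) : Finset V → K) S = _
        by_cases hRT : R ⊆ T.1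
        · rw [if_pos hRT, Finset.sum_eq_single R]
          · simp
          · intro S _ hS
            exact Pi.single_eq_of_ne hS _
          · intro h
            exact absurd (Finset.mem_powersetCard.2 ⟨hRT, hRi⟩) h
        · rw [if_neg hRT]
          refine Finset.sum_eq_zero fun S hS => ?_
          refine Pi.single_eq_of_ne ?_ _
          rintro rfl
          exact hRT (Finset.mem_powersetCard.1 hS).1
      rw [h2, map_sum] at h1
      rw [← h1]
      symm
      refine Finset.sum_bij_ne_zero (fun T _ _ => T.1) ?_ ?_ ?_ ?_
      · intro T _ hT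
        rw [Finset.mem_filter, Finset.mem_powersetCard]
        refine ⟨⟨Finset.subset_univ _, T.2.2⟩, ?_⟩
        by_contra hcon
        rw [if_neg hcon, map_zero] at hT
        exact hT rfl
      · intro T₁ _ _ T₂ _ _ h
        exact Subtype.ext h
      · intro T hT hT0
        rw [Finset.mem_filter, Finset.mem_powersetCard] at hT
        have hf : IsFace C T ∧ T.card = k := by
          by_contra hcon
          rw [hd] at hT0
          exact hT0 (dif_neg hcon)
        refine ⟨⟨T, hf⟩, Finset.mem_univ _, ?_, rfl⟩
        rw [if_pos hT.2]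
        rw [hd] at hT0
        simp only [dif_pos hf] at hT0
        exact hT0
      · intro T _ hT
        have hRT : R ⊆ T.1 := by
          by_contra hcon
          rw [if_neg hcon, map_zero] at hT
          exact hT rfl
        rw [if_pos hRT, hd]
        simp only [dif_pos T.2]
        rfl
  obtain ⟨c, hc⟩ : ∃ c, B c = fun T => g T.1 := by
    have : (fun T => g T.1) ∈ LinearMap.range B := by rw [hB]; exact Submodule.mem_top
    exact this
  exact ⟨c, fun T hT hTk => congrFun hc ⟨T, hT, hTk⟩⟩

end Surj

section Alg

variable {n : ℕ} {K : Type*} [Field K]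

/-- The ideal `N(Δ) + (x_1^2, ..., x_n^2)`, `Δ` the complex with the facets `C`. -/
noncomputable def sqIdeal (K : Type*) [Field K] {n : ℕ} (C : Finset (Finset (Fin n))) :
    Ideal (MvPolynomial (Fin n) K) :=
  Ideal.span {f | ∃ σ : Finset (Fin n), ¬ IsFace C σ ∧ f = ∏ i ∈ σ, X i} ⊔
    Ideal.span {f | ∃ i : Fin n, f = X i ^ 2}

/-- the exponent vector of a set -/
noncomputable def ind (S : Finset (Fin n)) : Fin n →₀ ℕ := ∑ v ∈ S, Finsupp.single v 1

lemma ind_apply (S : Finset (Fin n)) (v : Fin n) : ind S v = if v ∈ S then 1 else 0 := by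
  rw [ind, Finsupp.finsetSum_apply]
  simp only [Finsupp.single_apply]
  rw [Finset.sum_ite_eq']

lemma ind_injective : Function.Injective (ind : Finset (Fin n) → _) := by
  intro S T h
  ext v
  have := DFunLike.congr_fun h v
  rw [ind_apply, ind_apply] at this
  by_cases h1 : v ∈ S <;> by_cases h2 : v ∈ T <;> simp_all

lemma ind_degree (S : Finset (Fin n)) : (ind S).degree = S.card := by
  rw [ind, map_sum]
  simp

lemma le_ind {u : Fin n →₀ ℕ} {S : Finset (Fin n)} (h : u ≤ ind S) : ∃ T ⊆ S, u = ind T := by
  refine ⟨u.support, ?_, ?_⟩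
  · intro v hv
    by_contra hcon
    have h1 := h v
    rw [ind_apply, if_neg hcon] at h1
    rw [Finsupp.mem_support_iff] at hv
    omega
  · ext v
    have h1 := h v
    rw [ind_apply] at h1 ⊢
    by_cases h2 : v ∈ u.support
    · rw [if_pos h2]
      rw [Finsupp.mem_support_iff] at h2
      split_ifs at h1 <;> omega
    · rw [if_neg h2]
      rwa [Finsupp.notMem_support_iff] at h2

lemma prod_X (S : Finset (Fin n)) : (∏ i ∈ S, X i : MvPolynomial (Fin n) K) =
    monomial (ind S) 1 := by
  rw [ind]
  induction S using Finset.induction_on with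
  | empty => simp
  | insert v S hv ih =>
    rw [Finset.prod_insert hv, Finset.sum_insert hv, ih, X, monomial_mul, one_mul]

/-- The ideal of the polynomials whose coefficients at the faces vanish. -/
def J (K : Type*) [Field K] {n : ℕ} (C : Finset (Finset (Fin n))) :
    Ideal (MvPolynomial (Fin n) K) where
  carrier := {f | ∀ S, IsFace C S → coeff (ind S) f = 0}
  add_mem' {f g} hf hg S hS := by rw [coeff_add, hf S hS, hg S hS, add_zero]
  zero_mem' S _ := coeff_zero _
  smul_mem' p f hf S hS := by
    rw [smul_eq_mul, coeff_mul]
    refine Finset.sum_eq_zero fun x hx => ?_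
    rw [Finset.HasAntidiagonal.mem_antidiagonal] at hx
    obtain ⟨T, hTS, hT⟩ := le_ind (u := x.2) (S := S) (by rw [← hx]; exact le_add_self)
    obtain ⟨F, hF, hSF⟩ := hS
    rw [hT, hf T ⟨F, hF, hTS.trans hSF⟩, mul_zero]

lemma sqIdeal_eq (C : Finset (Finset (Fin n))) : sqIdeal K C = J K C := by
  apply le_antisymm
  · refine sup_le (Ideal.span_le.2 ?_) (Ideal.span_le.2 ?_)
    · rintro _ ⟨σ, hσ, rfl⟩ S hS
      rw [prod_X, coeff_monomial, if_neg]
      intro h
      exact hσ (ind_injective h ▸ hS)
    · rintro _ ⟨i, rfl⟩ S _
      rw [X_pow_eq_monomial, coeff_monomial, if_neg]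
      intro h
      have := DFunLike.congr_fun h i
      rw [Finsupp.single_eq_same, ind_apply] at this
      split_ifs at this
      omega
  · intro f hf
    rw [f.as_sum]
    refine Ideal.sum_mem _ fun u hu => ?_
    by_cases h2 : ∃ i, 2 ≤ u i
    · obtain ⟨i, hi⟩ := h2
      refine Ideal.mem_sup_right ?_
      have h3 : u = Finsupp.single i 2 + (u - Finsupp.single i 2) := by
        rw [add_tsub_cancel_of_le]
        rwa [Finsupp.single_le_iff]
      have h4 : monomial u (coeff u f) =
          monomial (u - Finsupp.single i 2) (coeff u f) * (X i : MvPolynomial (Fin n) K) ^ 2 := by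
        rw [X_pow_eq_monomial, monomial_mul, mul_one, add_comm, ← h3]
      rw [h4]
      exact Ideal.mul_mem_left _ _ (Ideal.subset_span ⟨i, rfl⟩)
    · push Not at h2
      have h3 : u = ind u.support := by
        ext v
        rw [ind_apply]
        have := h2 v
        split_ifs with h
        · rw [Finsupp.mem_support_iff] at h
          omega
        · rwa [Finsupp.notMem_support_iff] at h
      have h4 : ¬ IsFace C u.support := by
        intro h
        have := hf _ h
        rw [← h3] at this
        exact (mem_support_iff.1 hu) this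
      refine Ideal.mem_sup_left ?_
      have h5 : monomial u (coeff u f) =
          MvPolynomial.C (coeff u f) * (∏ i ∈ u.support, X i : MvPolynomial (Fin n) K) := by
        rw [prod_X, C_mul_monomial, mul_one, ← h3]
      rw [h5]
      exact Ideal.mul_mem_left _ _ (Ideal.subset_span ⟨_, h4, rfl⟩)

/-- the linear form with the given coefficients -/
noncomputable def lin (a : Fin n → K) : MvPolynomial (Fin n) K := ∑ v, C (a v) * X v

/-- squarefree coefficients -/
noncomputable def cf (f : MvPolynomial (Fin n) K) (S : Finset (Fin n)) : K := coeff (ind S) f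

lemma cf_lin_mul (a : Fin n → K) (f : MvPolynomial (Fin n) K) : cf (lin a * f) = U a (cf f) := by
  funext T
  rw [cf, lin, Finset.sum_mul, coeff_sum, U]
  have h1 : ∀ v, coeff (ind T) (C (a v) * X v * f) =
      if v ∈ T then a v * cf f (T.erase v) else 0 := by
    intro v
    rw [mul_assoc, coeff_C_mul, coeff_X_mul']
    have h2 : v ∈ (ind T).support ↔ v ∈ T := by
      rw [Finsupp.mem_support_iff, ind_apply]
      split_ifs with h <;> simp [h]
    by_cases hv : v ∈ T
    · rw [if_pos (h2.2 hv), if_pos hv, cf]
      congr 2
      ext x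
      rw [Finsupp.tsub_apply, ind_apply, ind_apply, Finsupp.single_apply]
      by_cases hx : x = v
      · subst hx; simp [hv]
      · simp [hx, Ne.symm hx]
    · rw [if_neg (fun h => hv (h2.1 h)), if_neg hv, mul_zero]
  rw [Finset.sum_congr rfl fun v _ => h1 v, ← Finset.sum_filter, Finset.filter_mem_eq_inter,
    Finset.univ_inter]

lemma cf_lin_pow_mul (a : Fin n → K) (j : ℕ) (f : MvPolynomial (Fin n) K) :
    cf (lin a ^ j * f) = (U a)^[j] (cf f) := by
  induction j with
  | zero => simp
  | succ j ih =>
    rw [pow_succ', mul_assoc, cf_lin_mul, ih, Function.iterate_succ_apply']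

end Alg

end Pool.Agent.Q122.Forest
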